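import Mathlib
import Pool.Agent.Helper2.PB.Defs
import Pool.Agent.Helper2.PB.Amp2

/-!
# PEPS approximation of ground states: amplification of a small overlap to any accuracy
-/

set_option autoImplicit false

namespace Pool.Agent.Results.MP_e4acd5_mp.Amplify

open Matrix Pool.Agent.Helper2.PB

/-- Let `h` be a Hermitian operator on the box of side `s ≥ 1`, `H_L` the sum of its translates on the
`L × L` torus and `Δ > 0`. There is a constant `C` such that for all `L ≥ s` for which `H_L` has a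
unique ground state `ψ` with gap at least `Δ`, every PEPS `Φ` of bond dimension `D'` whose normalised
overlap with `ψ` is nonzero and at least `η`, and every `0 < δ ≤ 1`, there is a PEPS of bond dimension
`D ≤ C (L/(ηδ))^C D'` at distance at most `δ` from `ψ`. -/
theorem result {d s : ℕ} (hs1 : 1 ≤ s) (h : Matrix (Box s → Fin d) (Box s → Fin d) ℂ)
    (hh : h.IsHermitian) (Δ : ℝ) (hΔ : 0 < Δ) :
    ∃ C : ℝ, 0 < C ∧ ∀ (L : ℕ) [NeZero L], s ≤ L → ∀ (E₀ : ℝ) (ψ : (Torus L → Fin d) → ℂ),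
      IsGappedGround (ham L h) E₀ Δ ψ → ∀ (D' : ℕ)
      (A' : Torus L → Fin d → Fin D' → Fin D' → Fin D' → Fin D' → ℂ) (η δ : ℝ),
      0 < η → η ≤ 1 → 0 < δ → δ ≤ 1 → star ψ ⬝ᵥ pepsState A' ≠ 0 →
      η * Real.sqrt (nsq (pepsState A')) ≤ ‖star ψ ⬝ᵥ pepsState A'‖ →
        ∃ D : ℕ, (D : ℝ) ≤ C * (L / (η * δ)) ^ C * D' ∧
          ∃ A : Torus L → Fin d → Fin D → Fin D → Fin D → Fin D → ℂ,
            Real.sqrt (nsq (fun σ => pepsState A σ - ψ σ)) ≤ δ :=
  amplify hs1 h hh Δ hΔ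

end Pool.Agent.Results.MP_e4acd5_mp.Amplify
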