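import Mathlib
import Pool.Agent.Helper2.PB.Defs
import Pool.Agent.KTP.Una
import Pool.Agent.KTP.Fic

/-!
# Weak perturbations of classical Hamiltonians: PEPS of bond dimension polynomial in `L/ε`
-/

set_option autoImplicit false

namespace Pool.Agent.Results.MP_e4acd5_mp.ClassicalPerturbation

open Matrix Pool.Agent.Helper2.PB Pool.Agent.KTP

/-- For all `d`, `s ≥ 1`, `s'`, `δ > 0`, `κ ≥ 0` there is `ε₀ > 0` such that the following holds. Let `u` be a
real function on the configurations of the `s' × s'` box whose minimum `m` is attained at the constant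
configuration `g`, with `u ≤ m + κ` everywhere and `u ≥ m + δ` if the site `p` is not in the state `g`; let
`h'` be at Hilbert-Schmidt distance at most `ε₀` from the operator with eigenvalues `u` in the product basis
given by a one-site unitary `U`; let `h` be a Hermitian operator on the `s × s` box such that for all
`L ≥ max s s'` the Hamiltonians `H_L` of `h` and `h'` are unitarily equivalent (for instance `h = h'`). Then for all
these `L` the Hamiltonian `H_L` of `h` has a unique ground state with gap at least `δ/2`, and there is `C` such that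
for all these `L` and all `0 < ε ≤ 1` the ground state is within `ε` of a PEPS of bond dimension at most
`C (L/ε)^C`. -/
theorem result {d s s' : ℕ} (hs1 : 1 ≤ s) (δ κ : ℝ) (hδ : 0 < δ) (hκ : 0 ≤ κ) :
    ∃ ε₀ : ℝ, 0 < ε₀ ∧ ∀ (U : Matrix (Fin d) (Fin d) ℂ) (g : Fin d) (p : Box s')
      (u : (Box s' → Fin d) → ℝ) (h' : Matrix (Box s' → Fin d) (Box s' → Fin d) ℂ)
      (h : Matrix (Box s → Fin d) (Box s → Fin d) ℂ),
      U * star U = 1 → (∀ x, u (fun _ => g) ≤ u x ∧ u x ≤ u (fun _ => g) + κ) →
      (∀ x, x p ≠ g → u (fun _ => g) + δ ≤ u x) → hsn (h' - clas U u) ≤ ε₀ →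
      h.IsHermitian → UnitEquiv (max s s') h h' →
      AllGapped (max s s') h (δ / 2) ∧ PolyPEPS (max s s') h (δ / 2) :=
  weakX2 hs1 δ κ hδ hκ

end Pool.Agent.Results.MP_e4acd5_mp.ClassicalPerturbation
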