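import Mathlib
import Pool.Agent.Helper2.PB.Defs
import Pool.Agent.Helper2.PB.Poly

/-!
# PEPS approximation of ground states: polynomial bond dimension under a polynomial density of states
-/

set_option autoImplicit false

namespace Pool.Agent.Results.MP_e4acd5_mp.DensityOfStates

open Matrix Pool.Agent.Helper2.PB

/-- Let `h` be a Hermitian operator on the box of side `s ≥ 1` and `H_L` the sum of its translates on
the `L × L` torus, `L ≥ s`.

(1) There is a constant `C` (depending on `h`) such that for all `L ≥ s`, every unit eigenvector `ψ`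
of `H_L` for the lowest eigenvalue `E₀`, all `β ≥ 0` and `0 < ε ≤ 1` there is a PEPS of bond dimension
`D ≤ C (L/ε)^C e^{Cβ}` at distance at most `ε + √(Z - 1)` from `ψ`, where `Z = ∑ exp(-2β(E_i - E₀))`.

(2) Suppose that for all `L ≥ s` the ground state `ψ_L` is unique with gap at least `Δ > 0` and the
number of eigenvalues below `E₀ + M` is at most `(aL)^{a(M+1)}` for all `M ≥ 0`. Then for every
`c ≥ 0` there is a polynomial `C L^k` such that for every `L ≥ s` some PEPS of bond dimension at most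
`C L^k` is at distance at most `L^{-c}` from `ψ_L`. -/
theorem result {d s : ℕ} (hs1 : 1 ≤ s) (h : Matrix (Box s → Fin d) (Box s → Fin d) ℂ)
    (hh : h.IsHermitian) :
    (∃ C : ℝ, 0 < C ∧ ∀ (L : ℕ) [NeZero L] (hH : (ham L h).IsHermitian), s ≤ L →
      ∀ (E₀ : ℝ) (ψ : (Torus L → Fin d) → ℂ),
      nsq ψ = 1 → (ham L h).mulVec ψ = (E₀ : ℂ) • ψ → (∀ i, E₀ ≤ hH.eigenvalues i) →
      ∀ β ε : ℝ, 0 ≤ β → 0 < ε → ε ≤ 1 →
        ∃ D : ℕ, (D : ℝ) ≤ C * (L / ε) ^ C * Real.exp (C * β) ∧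
          ∃ A : Torus L → Fin d → Fin D → Fin D → Fin D → Fin D → ℂ,
            Real.sqrt (nsq (fun σ => pepsState A σ - ψ σ)) ≤
              ε + Real.sqrt (partZ hH E₀ β - 1)) ∧
    (∀ (Δ : ℝ) (a : ℕ) (E₀ : ℕ → ℝ) (ψ : (L : ℕ) → (Torus L → Fin d) → ℂ), 0 < Δ → 1 ≤ a →
      (∀ (L : ℕ) [NeZero L], s ≤ L → IsGappedGround (ham L h) (E₀ L) Δ (ψ L)) →
      (∀ (L : ℕ) [NeZero L] (hH : (ham L h).IsHermitian), s ≤ L → ∀ M : ℝ, 0 ≤ M →
        ((Finset.univ.filter fun i => hH.eigenvalues i < E₀ L + M).card : ℝ) ≤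
          ((a : ℝ) * L) ^ ((a : ℝ) * (M + 1))) →
      ∀ c : ℝ, 0 ≤ c → ∃ C k : ℕ, ∀ (L : ℕ) [NeZero L], s ≤ L → ∃ D : ℕ, D ≤ C * L ^ k ∧
        ∃ A : Torus L → Fin d → Fin D → Fin D → Fin D → Fin D → ℂ,
          Real.sqrt (nsq (fun σ => pepsState A σ - ψ L σ)) ≤ (L : ℝ) ^ (-c)) := by
  constructor
  · obtain ⟨C, hC, hgen⟩ := general hs1 h hh
    refine ⟨C, hC, ?_⟩
    intro L _ hH hsL E₀ ψ hψ hHψ h0 β ε hβ hε hε1
    exact hgen L hsL E₀ ψ hψ hHψ h0 β ε hβ hε hε1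
  · intro Δ a E₀ ψ hΔ ha hg hdos c hc
    exact poly hs1 h hh Δ hΔ a ha E₀ ψ hg
      (fun L _ hsL M hM => hdos L (ham_isHermitian L h hh) hsL M hM) c hc

end Pool.Agent.Results.MP_e4acd5_mp.DensityOfStates
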